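import Pool.Agent.H754R3.Sturm.Meas

/-!
# A zero-temperature stable Sturmian ground state

For the golden slope `φ = (√5 - 1)/2` and the summable interaction `Φ_Λ(y) = |Λ|^{-2}` if `Λ` is an
interval `[a - fib (k+6), a + fib (k+6)]` on which the word of `y` is not Sturmian (and `0`
otherwise), the Sturmian measure is the unique ground state and it is zero-temperature stable.
-/

namespace Pool.Agent.Results.MP_084e97_mp.GoldenStable

open Pool.Agent.H754R3.Sturm MeasureTheory

/-- There are an irrational `φ ∈ (0,1)` and a summable interaction whose unique ground state is the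
Sturmian measure of `φ`, and this ground state is zero-temperature stable. -/
theorem result :
    ∃ φ : ℝ, Irrational φ ∧ 0 < φ ∧ φ < 1 ∧
      ∃ ρ : Measure Cfg, IsSturmianMeasure φ ρ ∧
        ∃ Φ : Interaction, Φ.IsSummable ∧
          (∀ μ : Measure Cfg, Φ.IsGroundState μ ↔ μ = ρ) ∧ Φ.IsStable ρ :=
  ⟨φ, irrational_φ, φ_pos, φ_lt_one, rho, isSturmianMeasure_rho, golden, golden_summable,
    fun _ => ⟨unique_ground_state, fun h => h ▸ isGroundState_rho⟩, stable_rho⟩

end Pool.Agent.Results.MP_084e97_mp.GoldenStable
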